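import Pool.Agent.helper91.AD.XA

/-!
Module HB of project ad: the Hessian is small.
-/

namespace Pool.Agent.helper73.AD

open scoped BigOperators Topology
open Filter

/-- the algebraic estimate -/
theorem HB_real (c s k E Wt Wf Wm P a b px py pp Mx My MM X Y h Dx Dy : ℝ)
    (hc : 1 ≤ c) (hs2 : s ^ 2 = c ^ 2 - 1) (hs0 : 0 < s) (hk : 0 ≤ k) (hE : 0 ≤ E)
    (hWt : 0 < Wt) (hWf : 0 < Wf) (hWm : 0 ≤ Wm) (hP : 1 ≤ P) (hprod : Wt * Wf = P ^ 2)
    (hsum : Wt + Wf + Wm = 2 * c) (hPc : P ≤ c) (hEE : E = (P - 1) + Wm) (hX : 0 ≤ X) (hY : 0 ≤ Y)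
    (ha : |a| ≤ k * X) (hb : |b| ≤ k * Y) (hpx : |px| ≤ k * E * X) (hpy : |py| ≤ k * E * Y)
    (hMx : |Mx| ≤ k * E * X) (hMy : |My| ≤ k * E * Y) (hpp : |pp| ≤ k * E * X * Y)
    (hMM : |MM| ≤ k * E * X * Y)
    (hDx : Dx = Wt * (a / 2 + px) + Wf * (-(a / 2) + px) + Mx)
    (hDy : Dy = Wt * (b / 2 + py) + Wf * (-(b / 2) + py) + My)
    (hh : Wt * ((a / 2 + px) * (b / 2 + py) + pp) + Wf * ((-(a / 2) + px) * (-(b / 2) + py) + pp)
      + MM = c / 2 * ((Dx / s) * (Dy / s)) + s * h) :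
    |h| ≤ ((k ^ 2 / 4 * (4 * c * (c + 1) + 2 * c ^ 2 + 2) + 2 * s ^ 2 * (2 * c * (3 * c * k ^ 2))
      + 2 * s ^ 2 * (2 * c * k) + 2 * s ^ 2 * (c * (2 * k ^ 2)) + 2 * s ^ 2 * k
      + c * (c * k * ((2 * c + 1) * k)) + c * (c * k * ((2 * c + 1) * k))
      + c * (3 * c * ((2 * c + 1) * k) ^ 2)) / (2 * s ^ 3)) * E * X * Y := by
  have hc0 : 0 < c := by linarith
  set S := Wt + Wf with hS
  set Δ := Wt - Wf with hΔ
  have hS0 : 0 < S := by positivity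
  have hSc : S ≤ 2 * c := by linarith
  have hSabs : |S| ≤ 2 * c := by rw [abs_of_pos hS0]; exact hSc
  have hΔabs : |Δ| ≤ 2 * c := by
    rw [abs_le]; constructor <;> linarith
  have hE3 : E ≤ 3 * c := by linarith
  have hWmc : Wm ≤ 2 * c := by linarith
  have hΔ2 : Δ ^ 2 = (2 * c - Wm) ^ 2 - 4 * P ^ 2 := by
    have h1 : Δ ^ 2 = S ^ 2 - 4 * (Wt * Wf) := by rw [hS, hΔ]; ring
    have h2 : S = 2 * c - Wm := by linarith
    rw [h1, hprod, h2]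
  have hK0 : 2 * s ^ 2 * S - c * Δ ^ 2 = Wm * (2 * c ^ 2 + 2 - c * Wm) + 4 * c * (P ^ 2 - 1) := by
    have h2 : S = 2 * c - Wm := by linarith
    rw [hΔ2, hs2, h2]; ring
  have hK0b : |2 * s ^ 2 * S - c * Δ ^ 2| ≤ (4 * c * (c + 1) + 2 * c ^ 2 + 2) * E := by
    rw [hK0]
    have h1 : 0 ≤ 2 * c ^ 2 + 2 - c * Wm := by nlinarith
    have h2 : 0 ≤ P ^ 2 - 1 := by nlinarith
    have h3 : 0 ≤ Wm * (2 * c ^ 2 + 2 - c * Wm) + 4 * c * (P ^ 2 - 1) := by positivity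
    rw [abs_of_nonneg h3]
    have h4 : Wm * (2 * c ^ 2 + 2 - c * Wm) ≤ (2 * c ^ 2 + 2) * Wm := by
      nlinarith [mul_nonneg hc0.le (sq_nonneg Wm)]
    have h5 : P ^ 2 - 1 ≤ (c + 1) * (P - 1) := by nlinarith
    have h6 : 4 * c * (P ^ 2 - 1) ≤ 4 * c * ((c + 1) * (P - 1)) := by gcongr
    have h7 : (2 * c ^ 2 + 2) * Wm ≤ (4 * c * (c + 1) + 2 * c ^ 2 + 2) * Wm := by
      have : 0 ≤ 4 * c * (c + 1) := by positivity
      gcongr; linarith
    have h8 : 4 * c * ((c + 1) * (P - 1)) ≤ (4 * c * (c + 1) + 2 * c ^ 2 + 2) * (P - 1) := by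
      have : 0 ≤ (2 * c ^ 2 + 2) * (P - 1) := mul_nonneg (by positivity) (by linarith)
      linarith
    rw [hEE]
    linarith
  have hQ : 2 * s ^ 3 * h = a * b / 4 * (2 * s ^ 2 * S - c * Δ ^ 2) + 2 * s ^ 2 * (S * (px * py))
      + 2 * s ^ 2 * (S * pp) + 2 * s ^ 2 * (Δ / 2 * (a * py + b * px)) + 2 * s ^ 2 * MM
      - c * (Δ / 2 * a * (S * py + My)) - c * ((S * px + Mx) * (Δ / 2 * b))
      - c * ((S * px + Mx) * (S * py + My)) := by
    have h1 : 2 * s ^ 3 * h = 2 * s ^ 2 * (s * h) := by ring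
    have h2 : s * h = Wt * ((a / 2 + px) * (b / 2 + py) + pp)
        + Wf * ((-(a / 2) + px) * (-(b / 2) + py) + pp) + MM - c / 2 * ((Dx / s) * (Dy / s)) := by
      linarith
    have h3 : 2 * s ^ 2 * (c / 2 * ((Dx / s) * (Dy / s))) = c * (Dx * Dy) := by
      field_simp
    rw [h1, h2, mul_sub, h3, hDx, hDy, hS, hΔ]
    ring
  have hU : ∀ p M Z : ℝ, 0 ≤ Z → |p| ≤ k * E * Z → |M| ≤ k * E * Z →
      |S * p + M| ≤ (2 * c + 1) * k * (E * Z) := by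
    intro p M Z hZ h1 h2
    refine (abs_add_le _ _).trans ?_
    rw [abs_mul]
    have : |S| * |p| ≤ (2 * c) * (k * E * Z) := mul_le_mul hSabs h1 (abs_nonneg _) (by positivity)
    linarith
  have hUx := hU px Mx X hX hpx hMx
  have hUy := hU py My Y hY hpy hMy
  set m := E * X * Y with hm
  have hm0 : 0 ≤ m := by positivity
  have t1 : |a * b / 4 * (2 * s ^ 2 * S - c * Δ ^ 2)|
      ≤ k ^ 2 / 4 * (4 * c * (c + 1) + 2 * c ^ 2 + 2) * m := by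
    rw [abs_mul, abs_div, abs_mul]
    have h1 : |a| * |b| ≤ (k * X) * (k * Y) := mul_le_mul ha hb (abs_nonneg _) (by positivity)
    have h2 : |(4 : ℝ)| = 4 := by norm_num
    rw [h2]
    calc |a| * |b| / 4 * |2 * s ^ 2 * S - c * Δ ^ 2|
        ≤ ((k * X) * (k * Y)) / 4 * ((4 * c * (c + 1) + 2 * c ^ 2 + 2) * E) := by gcongr
      _ = _ := by rw [hm]; ring
  have t2 : |2 * s ^ 2 * (S * (px * py))| ≤ 2 * s ^ 2 * (2 * c * (3 * c * k ^ 2)) * m := by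
    rw [abs_mul, abs_of_nonneg (show 0 ≤ 2 * s ^ 2 by positivity), abs_mul, abs_mul]
    calc 2 * s ^ 2 * (|S| * (|px| * |py|)) ≤ 2 * s ^ 2 * ((2 * c) * ((k * E * X) * (k * E * Y))) := by
          gcongr
      _ = 2 * s ^ 2 * (2 * c * (E * k ^ 2)) * m := by rw [hm]; ring
      _ ≤ _ := by gcongr
  have t3 : |2 * s ^ 2 * (S * pp)| ≤ 2 * s ^ 2 * (2 * c * k) * m := by
    rw [abs_mul, abs_of_nonneg (show 0 ≤ 2 * s ^ 2 by positivity), abs_mul]
    calc 2 * s ^ 2 * (|S| * |pp|) ≤ 2 * s ^ 2 * ((2 * c) * (k * E * X * Y)) := by gcongr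
      _ = _ := by rw [hm]; ring
  have t4 : |2 * s ^ 2 * (Δ / 2 * (a * py + b * px))| ≤ 2 * s ^ 2 * (c * (2 * k ^ 2)) * m := by
    rw [abs_mul, abs_of_nonneg (show 0 ≤ 2 * s ^ 2 by positivity), abs_mul, abs_div, abs_two]
    have h1 : |a * py + b * px| ≤ (k * X) * (k * E * Y) + (k * Y) * (k * E * X) := by
      refine (abs_add_le _ _).trans ?_
      rw [abs_mul, abs_mul]
      gcongr
    calc 2 * s ^ 2 * (|Δ| / 2 * |a * py + b * px|)
        ≤ 2 * s ^ 2 * ((2 * c) / 2 * ((k * X) * (k * E * Y) + (k * Y) * (k * E * X))) := by gcongr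
      _ = _ := by rw [hm]; ring
  have t5 : |2 * s ^ 2 * MM| ≤ 2 * s ^ 2 * k * m := by
    rw [abs_mul, abs_of_nonneg (show 0 ≤ 2 * s ^ 2 by positivity)]
    calc 2 * s ^ 2 * |MM| ≤ 2 * s ^ 2 * (k * E * X * Y) := by gcongr
      _ = _ := by rw [hm]; ring
  have t6 : |c * (Δ / 2 * a * (S * py + My))| ≤ c * (c * k * ((2 * c + 1) * k)) * m := by
    rw [abs_mul, abs_of_pos hc0, abs_mul, abs_mul, abs_div, abs_two]
    calc c * (|Δ| / 2 * |a| * |S * py + My|)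
        ≤ c * ((2 * c) / 2 * (k * X) * ((2 * c + 1) * k * (E * Y))) := by gcongr
      _ = _ := by rw [hm]; ring
  have t7 : |c * ((S * px + Mx) * (Δ / 2 * b))| ≤ c * (c * k * ((2 * c + 1) * k)) * m := by
    rw [abs_mul, abs_of_pos hc0, abs_mul, abs_mul, abs_div, abs_two]
    calc c * (|S * px + Mx| * (|Δ| / 2 * |b|))
        ≤ c * (((2 * c + 1) * k * (E * X)) * ((2 * c) / 2 * (k * Y))) := by gcongr
      _ = _ := by rw [hm]; ring
  have t8 : |c * ((S * px + Mx) * (S * py + My))| ≤ c * (3 * c * ((2 * c + 1) * k) ^ 2) * m := by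
    rw [abs_mul, abs_of_pos hc0, abs_mul]
    calc c * (|S * px + Mx| * |S * py + My|)
        ≤ c * (((2 * c + 1) * k * (E * X)) * ((2 * c + 1) * k * (E * Y))) := by gcongr
      _ = c * (E * ((2 * c + 1) * k) ^ 2) * m := by rw [hm]; ring
      _ ≤ _ := by gcongr
  have hs3 : 0 < 2 * s ^ 3 := by positivity
  have hQabs : 2 * s ^ 3 * |h| ≤ (k ^ 2 / 4 * (4 * c * (c + 1) + 2 * c ^ 2 + 2)
      + 2 * s ^ 2 * (2 * c * (3 * c * k ^ 2))
      + 2 * s ^ 2 * (2 * c * k) + 2 * s ^ 2 * (c * (2 * k ^ 2)) + 2 * s ^ 2 * k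
      + c * (c * k * ((2 * c + 1) * k)) + c * (c * k * ((2 * c + 1) * k))
      + c * (3 * c * ((2 * c + 1) * k) ^ 2)) * m := by
    have h1 : 2 * s ^ 3 * |h| = |2 * s ^ 3 * h| := by rw [abs_mul, abs_of_pos hs3]
    rw [h1, hQ]
    refine (abs_sub _ _).trans ?_
    refine (add_le_add ((abs_sub _ _).trans (add_le_add ((abs_sub _ _).trans (add_le_add
      ((abs_add_le _ _).trans (add_le_add ((abs_add_le _ _).trans (add_le_add
        ((abs_add_le _ _).trans (add_le_add ((abs_add_le _ _).trans (add_le_add t1 t2)) t3)) t4)) t5))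
      t6)) t7)) t8).trans ?_
    apply le_of_eq; ring
  have h5 : |h| ≤ ((k ^ 2 / 4 * (4 * c * (c + 1) + 2 * c ^ 2 + 2)
      + 2 * s ^ 2 * (2 * c * (3 * c * k ^ 2))
      + 2 * s ^ 2 * (2 * c * k) + 2 * s ^ 2 * (c * (2 * k ^ 2)) + 2 * s ^ 2 * k
      + c * (c * k * ((2 * c + 1) * k)) + c * (c * k * ((2 * c + 1) * k))
      + c * (3 * c * ((2 * c + 1) * k) ^ 2)) * m) / (2 * s ^ 3) := by
    rw [le_div_iff₀ hs3]; linarith
  refine h5.trans (le_of_eq ?_)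
  rw [hm]; ring

theorem HB_of (hGS : GS_stmt) (hDT : DT_stmt) (hBD : BD_stmt) (hBF : BF_stmt) (hQB : QB_stmt) :
    HB_stmt := by
  intro J _ _ w l hl
  obtain ⟨k, hk0, hk⟩ := XA_bounds hGS hDT hBD hBF hQB w l
  set c := Real.cosh (l / 2) with hc
  set s := Real.sinh (l / 2) with hs'
  have hs0 : 0 < s := Real.sinh_pos_iff.mpr (by linarith)
  have hc1 : 1 ≤ c := Real.one_le_cosh _
  have hs2 : s ^ 2 = c ^ 2 - 1 := by
    have := Real.cosh_sq (l / 2)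
    rw [hc, hs']; linarith
  set C : ℝ := (k ^ 2 / 4 * (4 * c * (c + 1) + 2 * c ^ 2 + 2)
      + 2 * s ^ 2 * (2 * c * (3 * c * k ^ 2))
      + 2 * s ^ 2 * (2 * c * k) + 2 * s ^ 2 * (c * (2 * k ^ 2)) + 2 * s ^ 2 * k
      + c * (c * k * ((2 * c + 1) * k)) + c * (c * k * ((2 * c + 1) * k))
      + c * (3 * c * ((2 * c + 1) * k) ^ 2)) / (2 * s ^ 3) with hC
  have hC0 : 0 ≤ C := by positivity
  refine ⟨C + 1, by linarith, fun z hz hH x y => ?_⟩
  obtain ⟨hY, hp, hM, hpp, hMM⟩ := hk z hz hH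
  obtain ⟨-, hFH, hFH2⟩ := XA_FH hGS hBF w hz
  obtain ⟨-, -, hcosh, hWt, hWf, hF, hlP, hP, hWm, -, -, -, -, -⟩ := hBF J w z hz
  have h1 := hFH2 x y
  rw [XA_ddF hGS hDT w hz, hH] at h1
  have hx1 := hFH x
  rw [XA_dF hGS hDT w hz, hH] at hx1
  have hy1 := hFH y
  rw [XA_dF hGS hDT w hz, hH] at hy1
  rw [hH] at hcosh hP
  have hFc : w.W (fun _ => true) z + w.W (fun _ => false) z + w.Wm z = 2 * c := by
    rw [hc, hcosh]
    have := XA_split w (fun σ => w.W σ z)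
    unfold Word.F
    rw [this]; rfl
  have hP1 : 1 < Real.exp (w.lP z) := by rw [← Real.exp_zero]; exact Real.exp_lt_exp.mpr hlP
  have hE0 : 0 ≤ w.eps z := by unfold Word.eps; linarith
  have hprod : w.W (fun _ => true) z * w.W (fun _ => false) z = Real.exp (w.lP z) ^ 2 := by
    rw [hWt, hWf, ← Real.exp_add, sq, ← Real.exp_add]; congr 1; ring
  have hdx : fderiv ℝ w.H z x = (w.W (fun _ => true) z * (w.Y x / 2 + XA_p w z x)
      + w.W (fun _ => false) z * (-(w.Y x / 2) + XA_p w z x) + XA_M w z x) / s := by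
    rw [eq_div_iff hs0.ne', mul_comm]; exact hx1.symm
  have hdy : fderiv ℝ w.H z y = (w.W (fun _ => true) z * (w.Y y / 2 + XA_p w z y)
      + w.W (fun _ => false) z * (-(w.Y y / 2) + XA_p w z y) + XA_M w z y) / s := by
    rw [eq_div_iff hs0.ne', mul_comm]; exact hy1.symm
  rw [hdx, hdy] at h1
  have key := HB_real c s k (w.eps z) (w.W (fun _ => true) z) (w.W (fun _ => false) z) (w.Wm z)
    (Real.exp (w.lP z)) (w.Y x) (w.Y y) (XA_p w z x) (XA_p w z y) (XA_pp w z x y)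
    (XA_M w z x) (XA_M w z y) (XA_MM w z x y) ‖x‖ ‖y‖ (hs w.H z x y) _ _
    hc1 hs2 hs0 hk0 hE0 (Real.exp_pos _) (Real.exp_pos _) hWm hP1.le hprod hFc hP rfl
    (norm_nonneg _) (norm_nonneg _) (hY x) (hY y) (hp x) (hp y) (hM x) (hM y) (hpp x y) (hMM x y)
    rfl rfl h1
  refine key.trans ?_
  have hxn := norm_nonneg x
  have hyn := norm_nonneg y
  rw [← hC]
  exact mul_le_mul_of_nonneg_right (mul_le_mul_of_nonneg_right
    (mul_le_mul_of_nonneg_right (by linarith) hE0) hxn) hyn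

end Pool.Agent.helper73.AD
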