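import Pool.Agent.helper73.AD.Basic

/-!
Module XA of project ad: the Hamiltonian field is close to the limit direction.
-/

namespace Pool.Agent.helper73.AD

open scoped BigOperators Topology
open Filter

section tools

variable {J : Type} [Fintype J]

theorem XA_diffAt {f : PS J → ℝ} {z : PS J} (hf : ContDiffAt ℝ 2 f z) : DifferentiableAt ℝ f z :=
  hf.differentiableAt (by norm_num)

theorem XA_ev_diff {f : PS J → ℝ} {z : PS J} (hf : ContDiffAt ℝ 2 f z) :
    ∀ᶠ u in 𝓝 z, DifferentiableAt ℝ f u :=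
  (hf.eventually (by simp)).mono fun u hu => hu.differentiableAt (by norm_num)

theorem XA_diff_fderiv {f : PS J → ℝ} {z : PS J} (hf : ContDiffAt ℝ 2 f z) :
    DifferentiableAt ℝ (fun u => fderiv ℝ f u) z :=
  (hf.fderiv_right (m := 1) (by norm_num)).differentiableAt (by norm_num)

theorem XA_hs_congr {f g : PS J → ℝ} {z : PS J} (h : f =ᶠ[𝓝 z] g) (x y : PS J) :
    hs f z x y = hs g z x y := by
  unfold hs
  have h2 : (fun u => fderiv ℝ f u) =ᶠ[𝓝 z] (fun u => fderiv ℝ g u) := h.fderiv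
  rw [h2.fderiv_eq]

theorem XA_fd_exp {f : PS J → ℝ} {z : PS J} (hf : DifferentiableAt ℝ f z) (x : PS J) :
    fderiv ℝ (fun u => Real.exp (f u)) z x = Real.exp (f z) * fderiv ℝ f z x := by
  rw [(hf.hasFDerivAt.exp).fderiv]
  simp

theorem XA_hs_exp {f : PS J → ℝ} {z : PS J} (hf : ContDiffAt ℝ 2 f z) (x y : PS J) :
    hs (fun u => Real.exp (f u)) z x y
      = Real.exp (f z) * (fderiv ℝ f z x * fderiv ℝ f z y + hs f z x y) := by
  have h1 : (fun u => fderiv ℝ (fun u => Real.exp (f u)) u)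
      =ᶠ[𝓝 z] (fun u => Real.exp (f u) • fderiv ℝ f u) := by
    filter_upwards [XA_ev_diff hf] with u hu
    rw [(hu.hasFDerivAt.exp).fderiv]
  unfold hs
  rw [h1.fderiv_eq]
  have h2 := ((XA_diffAt hf).hasFDerivAt.exp).fun_smul (XA_diff_fderiv hf).hasFDerivAt
  rw [h2.fderiv]
  simp
  ring

theorem XA_fd_sum {ι : Type} (s : Finset ι) {f : ι → PS J → ℝ} {z : PS J}
    (hf : ∀ i ∈ s, DifferentiableAt ℝ (f i) z) (x : PS J) :
    fderiv ℝ (fun u => ∑ i ∈ s, f i u) z x = ∑ i ∈ s, fderiv ℝ (f i) z x := by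
  rw [(HasFDerivAt.fun_sum fun i hi => (hf i hi).hasFDerivAt).fderiv]
  simp

theorem XA_hs_sum {ι : Type} (s : Finset ι) {f : ι → PS J → ℝ} {z : PS J}
    (hf : ∀ i ∈ s, ContDiffAt ℝ 2 (f i) z) (x y : PS J) :
    hs (fun u => ∑ i ∈ s, f i u) z x y = ∑ i ∈ s, hs (f i) z x y := by
  have h1 : (fun u => fderiv ℝ (fun u => ∑ i ∈ s, f i u) u)
      =ᶠ[𝓝 z] (fun u => ∑ i ∈ s, fderiv ℝ (f i) u) := by
    have : ∀ᶠ u in 𝓝 z, ∀ i ∈ s, DifferentiableAt ℝ (f i) u :=
      (Filter.eventually_all_finset s).mpr fun i hi => XA_ev_diff (hf i hi)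
    filter_upwards [this] with u hu
    exact (HasFDerivAt.fun_sum fun i hi => (hu i hi).hasFDerivAt).fderiv
  unfold hs
  rw [h1.fderiv_eq]
  rw [(HasFDerivAt.fun_sum fun i hi => (XA_diff_fderiv (hf i hi)).hasFDerivAt).fderiv]
  simp

theorem XA_fd_add {f g : PS J → ℝ} {z : PS J} (hf : DifferentiableAt ℝ f z)
    (hg : DifferentiableAt ℝ g z) (x : PS J) :
    fderiv ℝ (fun u => f u + g u) z x = fderiv ℝ f z x + fderiv ℝ g z x := by
  rw [(hf.hasFDerivAt.fun_add hg.hasFDerivAt).fderiv]; rfl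

theorem XA_hs_add {f g : PS J → ℝ} {z : PS J} (hf : ContDiffAt ℝ 2 f z)
    (hg : ContDiffAt ℝ 2 g z) (x y : PS J) :
    hs (fun u => f u + g u) z x y = hs f z x y + hs g z x y := by
  have h1 : (fun u => fderiv ℝ (fun u => f u + g u) u)
      =ᶠ[𝓝 z] (fun u => fderiv ℝ f u + fderiv ℝ g u) := by
    filter_upwards [XA_ev_diff hf, XA_ev_diff hg] with u hu hu'
    exact (hu.hasFDerivAt.fun_add hu'.hasFDerivAt).fderiv
  unfold hs
  rw [h1.fderiv_eq, ((XA_diff_fderiv hf).hasFDerivAt.fun_add (XA_diff_fderiv hg).hasFDerivAt).fderiv]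
  rfl

theorem XA_fd_mul_const {f : PS J → ℝ} {z : PS J} (hf : DifferentiableAt ℝ f z) (c : ℝ)
    (x : PS J) : fderiv ℝ (fun u => c * f u) z x = c * fderiv ℝ f z x := by
  rw [(hf.hasFDerivAt.const_mul c).fderiv]; rfl

theorem XA_hs_mul_const {f : PS J → ℝ} {z : PS J} (hf : ContDiffAt ℝ 2 f z) (c : ℝ)
    (x y : PS J) : hs (fun u => c * f u) z x y = c * hs f z x y := by
  have h1 : (fun u => fderiv ℝ (fun u => c * f u) u)
      =ᶠ[𝓝 z] (fun u => c • fderiv ℝ f u) := by
    filter_upwards [XA_ev_diff hf] with u hu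
    exact (hu.hasFDerivAt.const_mul c).fderiv
  unfold hs
  rw [h1.fderiv_eq, ((XA_diff_fderiv hf).hasFDerivAt.fun_const_smul c).fderiv]
  rfl

omit [Fintype J] in
theorem XA_fd_lin (l : PS J →L[ℝ] ℝ) (z x : PS J) : fderiv ℝ (fun u => l u) z x = l x := by
  rw [l.hasFDerivAt.fderiv]

theorem XA_hs_lin (l : PS J →L[ℝ] ℝ) (z x y : PS J) : hs (fun u => l u) z x y = 0 := by
  unfold hs
  have : (fun u => fderiv ℝ (fun u => l u) u) = fun _ => l := by
    funext u; exact l.hasFDerivAt.fderiv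
  rw [this]; simp

end tools

section words

variable {J : Type} [Fintype J] [DecidableEq J]

/-- the twist parameter as a continuous linear functional -/
noncomputable def XA_tL (w : Word J) (i : Fin (w.n + 1)) : PS J →L[ℝ] ℝ :=
  (ContinuousLinearMap.proj (w.j i)).comp (ContinuousLinearMap.snd ℝ (J → ℝ) (J → ℝ))
    + w.c i • (ContinuousLinearMap.proj (w.j i)).comp (ContinuousLinearMap.fst ℝ (J → ℝ) (J → ℝ))

omit [Fintype J] [DecidableEq J] in
theorem XA_tL_apply (w : Word J) (i : Fin (w.n + 1)) (z : PS J) : XA_tL w i z = w.t i z := by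
  simp [XA_tL, Word.t]

omit [DecidableEq J] in
theorem XA_t_le (w : Word J) (i : Fin (w.n + 1)) (x : PS J) : |w.t i x| ≤ (1 + |w.c i|) * ‖x‖ := by
  unfold Word.t
  have h1 := abs_snd_le x (w.j i)
  have h2 := abs_fst_le x (w.j i)
  calc |x.2 (w.j i) + w.c i * x.1 (w.j i)| ≤ |x.2 (w.j i)| + |w.c i * x.1 (w.j i)| := abs_add_le _ _
    _ = |x.2 (w.j i)| + |w.c i| * |x.1 (w.j i)| := by rw [abs_mul]
    _ ≤ ‖x‖ + |w.c i| * ‖x‖ := by gcongr
    _ = (1 + |w.c i|) * ‖x‖ := by ring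

/-- pairing with the limit direction -/
theorem XA_om_e (w : Word J) (x : PS J) : om w.e x = - w.Y x := by
  unfold om Word.e Word.Y Word.t
  simp only
  have h1 : ∀ j : J, (-∑ i, (if w.j i = j then w.c i else 0)) * x.1 j
      - (∑ i, (if w.j i = j then (1 : ℝ) else 0)) * x.2 j
      = -∑ i, (if w.j i = j then (x.2 (w.j i) + w.c i * x.1 (w.j i)) else 0) := by
    intro j
    rw [neg_mul, Finset.sum_mul, Finset.sum_mul, ← neg_add', ← Finset.sum_add_distrib]
    congr 1
    refine Finset.sum_congr rfl fun i _ => ?_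
    split_ifs with h
    · rw [← h]; ring
    · ring
  rw [Finset.sum_congr rfl fun j _ => h1 j, Finset.sum_neg_distrib, Finset.sum_comm]
  congr 1
  refine Finset.sum_congr rfl fun i _ => ?_
  simp

/-- fderiv of a log weight -/
theorem XA_fdL (hGS : GS_stmt) (w : Word J) (σ : Fin (w.n + 1) → Bool) {z : PS J}
    (hz : z ∈ Cone J) (x : PS J) :
    fderiv ℝ (w.L σ) z x = ∑ i, (bs (σ i) * w.t i x / 2
      + fderiv ℝ (fun z : PS J => (w.A i).g (σ i) (σ (i + 1)) z.1) z x) := by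
  have hG : ∀ i, ContDiffAt ℝ 2 (fun z : PS J => (w.A i).g (σ i) (σ (i + 1)) z.1) z := fun i =>
    ((hGS J).1 (w.A i) (σ i) (σ (i + 1))).contDiffAt (Cone_mem_nhds hz)
  have e : w.L σ = fun z => ∑ i, ((((bs (σ i) / 2) • XA_tL w i : PS J →L[ℝ] ℝ) z)
      + (w.A i).g (σ i) (σ (i + 1)) z.1) := by
    funext z
    unfold Word.L
    refine Finset.sum_congr rfl fun i _ => ?_
    simp [XA_tL_apply]; ring
  rw [e, XA_fd_sum]
  · refine Finset.sum_congr rfl fun i _ => ?_
    rw [XA_fd_add (ContinuousLinearMap.differentiableAt _) (XA_diffAt (hG i)), XA_fd_lin]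
    simp [XA_tL_apply]; ring
  · intro i _
    exact (ContinuousLinearMap.differentiableAt _).fun_add (XA_diffAt (hG i))

/-- Hessian of a log weight -/
theorem XA_hsL (hGS : GS_stmt) (w : Word J) (σ : Fin (w.n + 1) → Bool) {z : PS J}
    (hz : z ∈ Cone J) (x y : PS J) :
    hs (w.L σ) z x y = ∑ i, hs (fun z : PS J => (w.A i).g (σ i) (σ (i + 1)) z.1) z x y := by
  have hG : ∀ i, ContDiffAt ℝ 2 (fun z : PS J => (w.A i).g (σ i) (σ (i + 1)) z.1) z := fun i =>
    ((hGS J).1 (w.A i) (σ i) (σ (i + 1))).contDiffAt (Cone_mem_nhds hz)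
  have e : w.L σ = fun z => ∑ i, ((((bs (σ i) / 2) • XA_tL w i : PS J →L[ℝ] ℝ) z)
      + (w.A i).g (σ i) (σ (i + 1)) z.1) := by
    funext z
    unfold Word.L
    refine Finset.sum_congr rfl fun i _ => ?_
    simp [XA_tL_apply]; ring
  rw [e, XA_hs_sum]
  · refine Finset.sum_congr rfl fun i _ => ?_
    rw [XA_hs_add (ContinuousLinearMap.contDiff _).contDiffAt (hG i), XA_hs_lin]
    simp
  · intro i _
    exact ContDiffAt.add (ContinuousLinearMap.contDiff _).contDiffAt (hG i)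

/-- fderiv of the trace -/
theorem XA_fdF (hGS : GS_stmt) (w : Word J) {z : PS J} (hz : z ∈ Cone J) (x : PS J) :
    fderiv ℝ w.F z x = ∑ σ : Fin (w.n + 1) → Bool, w.W σ z * fderiv ℝ (w.L σ) z x := by
  have hL : ∀ σ, ContDiffAt ℝ 2 (w.L σ) z := fun σ =>
    ((hGS J).2.1 w σ).contDiffAt (Cone_mem_nhds hz)
  have e : w.F = fun z => ∑ σ : Fin (w.n + 1) → Bool, Real.exp (w.L σ z) := by
    funext z; rfl
  rw [e, XA_fd_sum _ fun σ _ => (XA_diffAt (hL σ)).exp]
  refine Finset.sum_congr rfl fun σ _ => ?_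
  rw [XA_fd_exp (XA_diffAt (hL σ))]; rfl

/-- Hessian of the trace -/
theorem XA_hsF (hGS : GS_stmt) (w : Word J) {z : PS J} (hz : z ∈ Cone J) (x y : PS J) :
    hs w.F z x y = ∑ σ : Fin (w.n + 1) → Bool, w.W σ z *
      (fderiv ℝ (w.L σ) z x * fderiv ℝ (w.L σ) z y + hs (w.L σ) z x y) := by
  have hL : ∀ σ, ContDiffAt ℝ 2 (w.L σ) z := fun σ =>
    ((hGS J).2.1 w σ).contDiffAt (Cone_mem_nhds hz)
  have e : w.F = fun z => ∑ σ : Fin (w.n + 1) → Bool, Real.exp (w.L σ z) := by
    funext z; rfl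
  rw [e, XA_hs_sum _ fun σ _ => (hL σ).exp]
  refine Finset.sum_congr rfl fun σ _ => ?_
  rw [XA_hs_exp (hL σ)]; rfl

/-- relation between the derivatives of F and H -/
theorem XA_FH (hGS : GS_stmt) (hBF : BF_stmt) (w : Word J) {z : PS J} (hz : z ∈ Cone J) :
    ContDiffAt ℝ 2 w.H z ∧
    (∀ x, fderiv ℝ w.F z x = Real.sinh (w.H z / 2) * fderiv ℝ w.H z x) ∧
    (∀ x y, hs w.F z x y = Real.cosh (w.H z / 2) / 2 * (fderiv ℝ w.H z x * fderiv ℝ w.H z y)
      + Real.sinh (w.H z / 2) * hs w.H z x y) := by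
  have hH : ContDiffAt ℝ 2 w.H z :=
    ((hGS J).2.2.2.2 w fun z hz => (hBF J w z hz).1).contDiffAt (Cone_mem_nhds hz)
  have hp : ContDiffAt ℝ 2 (fun u => (1 / 2 : ℝ) * w.H u) z := contDiffAt_const.mul hH
  have hm : ContDiffAt ℝ 2 (fun u => (-1 / 2 : ℝ) * w.H u) z := contDiffAt_const.mul hH
  have e : w.F =ᶠ[𝓝 z] fun u => Real.exp ((1 / 2 : ℝ) * w.H u) + Real.exp ((-1 / 2 : ℝ) * w.H u) := by
    filter_upwards [Cone_mem_nhds hz] with u hu
    rw [← (hBF J w u hu).2.2.1, Real.cosh_eq]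
    ring_nf
  refine ⟨hH, fun x => ?_, fun x y => ?_⟩
  · rw [e.fderiv_eq, XA_fd_add (XA_diffAt hp).exp (XA_diffAt hm).exp, XA_fd_exp (XA_diffAt hp),
      XA_fd_exp (XA_diffAt hm), XA_fd_mul_const (XA_diffAt hH), XA_fd_mul_const (XA_diffAt hH),
      Real.sinh_eq]
    ring_nf
  · rw [XA_hs_congr e, XA_hs_add hp.exp hm.exp, XA_hs_exp hp, XA_hs_exp hm,
      XA_fd_mul_const (XA_diffAt hH), XA_fd_mul_const (XA_diffAt hH),
      XA_fd_mul_const (XA_diffAt hH), XA_fd_mul_const (XA_diffAt hH),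
      XA_hs_mul_const hH, XA_hs_mul_const hH, Real.sinh_eq, Real.cosh_eq]
    ring_nf

omit [Fintype J] [DecidableEq J] in
/-- splitting of a sum over sign sequences -/
theorem XA_split (w : Word J) (f : (Fin (w.n + 1) → Bool) → ℝ) :
    ∑ σ : Fin (w.n + 1) → Bool, f σ = f (fun _ => true) + f (fun _ => false)
      + ∑ σ : Fin (w.n + 1) → Bool, (if w.Mixed σ then f σ else 0) := by
  classical
  have h1 : ∀ σ : Fin (w.n + 1) → Bool, f σ = (if w.Mixed σ then f σ else 0)
      + ((if σ = (fun _ => true) then f σ else 0) + (if σ = (fun _ => false) then f σ else 0)) := by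
    intro σ
    by_cases hm : w.Mixed σ
    · obtain ⟨⟨i, hi⟩, ⟨j, hj⟩⟩ := id hm
      have a : σ ≠ (fun _ => true) := fun h => by rw [h] at hj; simp at hj
      have b : σ ≠ (fun _ => false) := fun h => by rw [h] at hi; simp at hi
      simp [hm, a, b]
    · have hne : (fun _ : Fin (w.n + 1) => true) ≠ (fun _ => false) := fun h => by
        have := congrFun h 0; simp at this
      by_cases ht : σ = (fun _ => true)
      · subst ht; simp [hm, hne]
      · have hf : σ = (fun _ => false) := by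
          funext i
          by_contra hi
          apply hm
          refine ⟨⟨i, by simpa using hi⟩, ?_⟩
          by_contra hall
          push Not at hall
          apply ht; funext j; simpa using hall j
        subst hf; simp [hm, hne.symm]
  rw [Finset.sum_congr rfl fun σ _ => h1 σ, Finset.sum_add_distrib, Finset.sum_add_distrib]
  simp
  ring

/-- derivative of the logarithm of the product of the diagonal entries -/
noncomputable def XA_p (w : Word J) (z x : PS J) : ℝ :=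
  ∑ i, fderiv ℝ (fun z : PS J => (w.A i).g true true z.1) z x

/-- mixed part of the derivative of F -/
noncomputable def XA_M (w : Word J) (z x : PS J) : ℝ :=
  ∑ σ : Fin (w.n + 1) → Bool, if w.Mixed σ then w.W σ z * fderiv ℝ (w.L σ) z x else 0

/-- Hessian of the logarithm of the product of the diagonal entries -/
noncomputable def XA_pp (w : Word J) (z x y : PS J) : ℝ :=
  ∑ i, hs (fun z : PS J => (w.A i).g true true z.1) z x y

/-- mixed part of the Hessian of F -/
noncomputable def XA_MM (w : Word J) (z x y : PS J) : ℝ :=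
  ∑ σ : Fin (w.n + 1) → Bool, if w.Mixed σ then
    w.W σ z * (fderiv ℝ (w.L σ) z x * fderiv ℝ (w.L σ) z y + hs (w.L σ) z x y) else 0

omit [DecidableEq J] in
theorem XA_gff (hDT : DT_stmt) (A : Arc J) {z : PS J} (hz : z ∈ Cone J) :
    (fun z : PS J => A.g false false z.1) =ᶠ[𝓝 z] (fun z : PS J => A.g true true z.1) := by
  filter_upwards [Cone_mem_nhds hz] with u hu
  exact (hDT J A u.1 hu).1

theorem XA_fdL_true (hGS : GS_stmt) (w : Word J) {z : PS J} (hz : z ∈ Cone J) (x : PS J) :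
    fderiv ℝ (w.L fun _ => true) z x = w.Y x / 2 + XA_p w z x := by
  rw [XA_fdL hGS w _ hz, Finset.sum_add_distrib]
  unfold XA_p Word.Y
  rw [Finset.sum_div]
  simp [bs]

theorem XA_fdL_false (hGS : GS_stmt) (hDT : DT_stmt) (w : Word J) {z : PS J} (hz : z ∈ Cone J)
    (x : PS J) : fderiv ℝ (w.L fun _ => false) z x = -(w.Y x / 2) + XA_p w z x := by
  rw [XA_fdL hGS w _ hz, Finset.sum_add_distrib]
  unfold XA_p Word.Y
  rw [Finset.sum_div, ← Finset.sum_neg_distrib]
  congr 1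
  · refine Finset.sum_congr rfl fun i _ => ?_
    simp [bs]; ring
  · refine Finset.sum_congr rfl fun i _ => ?_
    rw [(XA_gff hDT (w.A i) hz).fderiv_eq]

theorem XA_hsL_true (hGS : GS_stmt) (w : Word J) {z : PS J} (hz : z ∈ Cone J) (x y : PS J) :
    hs (w.L fun _ => true) z x y = XA_pp w z x y := by
  rw [XA_hsL hGS w _ hz]; rfl

theorem XA_hsL_false (hGS : GS_stmt) (hDT : DT_stmt) (w : Word J) {z : PS J} (hz : z ∈ Cone J)
    (x y : PS J) : hs (w.L fun _ => false) z x y = XA_pp w z x y := by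
  rw [XA_hsL hGS w _ hz]
  unfold XA_pp
  refine Finset.sum_congr rfl fun i _ => ?_
  rw [XA_hs_congr (XA_gff hDT (w.A i) hz)]

theorem XA_dF (hGS : GS_stmt) (hDT : DT_stmt) (w : Word J) {z : PS J} (hz : z ∈ Cone J)
    (x : PS J) : fderiv ℝ w.F z x = w.W (fun _ => true) z * (w.Y x / 2 + XA_p w z x)
      + w.W (fun _ => false) z * (-(w.Y x / 2) + XA_p w z x) + XA_M w z x := by
  rw [XA_fdF hGS w hz, XA_split, XA_fdL_true hGS w hz, XA_fdL_false hGS hDT w hz]; rfl

theorem XA_ddF (hGS : GS_stmt) (hDT : DT_stmt) (w : Word J) {z : PS J} (hz : z ∈ Cone J)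
    (x y : PS J) : hs w.F z x y
      = w.W (fun _ => true) z * ((w.Y x / 2 + XA_p w z x) * (w.Y y / 2 + XA_p w z y)
          + XA_pp w z x y)
      + w.W (fun _ => false) z * ((-(w.Y x / 2) + XA_p w z x) * (-(w.Y y / 2) + XA_p w z y)
          + XA_pp w z x y) + XA_MM w z x y := by
  rw [XA_hsF hGS w hz, XA_split, XA_fdL_true hGS w hz, XA_fdL_false hGS hDT w hz,
    XA_fdL_true hGS w hz, XA_fdL_false hGS hDT w hz, XA_hsL_true hGS w hz,
    XA_hsL_false hGS hDT w hz]; rfl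

/-- bounds of the derivatives of the diagonal entry -/
theorem XA_gtt (hGS : GS_stmt) (hDT : DT_stmt) (A : Arc J) {z : PS J} (hz : z ∈ Cone J) (B : ℝ)
    (hB : 0 ≤ B)
    (h : ∀ (s s' : Bool) (x y : PS J), |fderiv ℝ (fun z : PS J => A.g s s' z.1) z x| ≤ B * ‖x‖ ∧
      |hs (fun z : PS J => A.g s s' z.1) z x y| ≤ B * ‖x‖ * ‖y‖) :
    (∀ x, |fderiv ℝ (fun z : PS J => A.g true true z.1) z x|
      ≤ Real.exp (A.g true false z.1 + A.g false true z.1) * (B * ‖x‖)) ∧
    (∀ x y, |hs (fun z : PS J => A.g true true z.1) z x y|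
      ≤ Real.exp (A.g true false z.1 + A.g false true z.1) * ((4 * B ^ 2 + B) * ‖x‖ * ‖y‖)) := by
  set g : PS J → ℝ := fun z => A.g true true z.1 with hg
  set a : PS J → ℝ := fun z => A.g true false z.1 with ha
  set b : PS J → ℝ := fun z => A.g false true z.1 with hb
  have cg : ContDiffAt ℝ 2 g z := ((hGS J).1 A true true).contDiffAt (Cone_mem_nhds hz)
  have ca : ContDiffAt ℝ 2 a z := ((hGS J).1 A true false).contDiffAt (Cone_mem_nhds hz)
  have cb : ContDiffAt ℝ 2 b z := ((hGS J).1 A false true).contDiffAt (Cone_mem_nhds hz)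
  have c2g : ContDiffAt ℝ 2 (fun u => (2 : ℝ) * g u) z := contDiffAt_const.mul cg
  have cab : ContDiffAt ℝ 2 (fun u => a u + b u) z := ca.add cb
  have e : (fun u => Real.exp (2 * g u)) =ᶠ[𝓝 z] (fun u => 1 + Real.exp (a u + b u)) := by
    filter_upwards [Cone_mem_nhds hz] with u hu
    exact (hDT J A u.1 hu).2
  have e0 : Real.exp (2 * g z) = 1 + Real.exp (a z + b z) := e.eq_of_nhds
  have c1 : ContDiffAt ℝ 2 (fun _ : PS J => (1 : ℝ)) z := contDiffAt_const
  have d1 : ∀ x, Real.exp (2 * g z) * (2 * fderiv ℝ g z x)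
      = Real.exp (a z + b z) * (fderiv ℝ a z x + fderiv ℝ b z x) := by
    intro x
    have := congrArg (fun l : PS J →L[ℝ] ℝ => l x) e.fderiv_eq
    rw [XA_fd_exp (XA_diffAt c2g), XA_fd_mul_const (XA_diffAt cg),
      XA_fd_add (XA_diffAt c1) (XA_diffAt cab).exp, XA_fd_exp (XA_diffAt cab),
      XA_fd_add (XA_diffAt ca) (XA_diffAt cb)] at this
    simpa using this
  have d2 : ∀ x y, Real.exp (2 * g z) * (2 * fderiv ℝ g z x * (2 * fderiv ℝ g z y)
        + 2 * hs g z x y)
      = Real.exp (a z + b z) * ((fderiv ℝ a z x + fderiv ℝ b z x)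
          * (fderiv ℝ a z y + fderiv ℝ b z y) + (hs a z x y + hs b z x y)) := by
    intro x y
    have := XA_hs_congr e x y
    rw [XA_hs_exp c2g, XA_fd_mul_const (XA_diffAt cg), XA_fd_mul_const (XA_diffAt cg),
      XA_hs_mul_const cg, XA_hs_add c1 cab.exp, XA_hs_exp cab,
      XA_fd_add (XA_diffAt ca) (XA_diffAt cb), XA_fd_add (XA_diffAt ca) (XA_diffAt cb),
      XA_hs_add ca cb] at this
    have h0 : hs (fun _ : PS J => (1 : ℝ)) z x y = 0 := by
      unfold hs; simp
    rw [h0] at this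
    simpa using this
  set r := Real.exp (a z + b z) with hr
  have r0 : 0 < r := Real.exp_pos _
  set E := Real.exp (2 * g z) with hE
  have E1 : 1 ≤ E := by rw [e0]; linarith
  have E0 : 0 < E := by linarith
  have bg : ∀ x, |fderiv ℝ g z x| ≤ B * ‖x‖ := fun x => (h true true x x).1
  have ba : ∀ x, |fderiv ℝ a z x| ≤ B * ‖x‖ := fun x => (h true false x x).1
  have bb : ∀ x, |fderiv ℝ b z x| ≤ B * ‖x‖ := fun x => (h false true x x).1
  have ba2 : ∀ x y, |hs a z x y| ≤ B * ‖x‖ * ‖y‖ := fun x y => (h true false x y).2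
  have bb2 : ∀ x y, |hs b z x y| ≤ B * ‖x‖ * ‖y‖ := fun x y => (h false true x y).2
  have bab : ∀ x, |fderiv ℝ a z x + fderiv ℝ b z x| ≤ 2 * (B * ‖x‖) := fun x =>
    (abs_add_le _ _).trans (by linarith [ba x, bb x])
  have k1 : ∀ x, |fderiv ℝ g z x| ≤ r * (B * ‖x‖) := by
    intro x
    have h1 : E * (2 * |fderiv ℝ g z x|) = r * |fderiv ℝ a z x + fderiv ℝ b z x| := by
      have := congrArg abs (d1 x)
      rw [abs_mul, abs_mul, abs_mul, abs_of_pos E0, abs_of_pos r0] at this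
      simpa using this
    have h2 : 2 * |fderiv ℝ g z x| ≤ E * (2 * |fderiv ℝ g z x|) :=
      le_mul_of_one_le_left (by positivity) E1
    have h3 : r * |fderiv ℝ a z x + fderiv ℝ b z x| ≤ r * (2 * (B * ‖x‖)) := by
      gcongr; exact bab x
    linarith
  refine ⟨k1, fun x y => ?_⟩
  have hx := norm_nonneg x
  have hy := norm_nonneg y
  have h1 : E * (2 * |hs g z x y|) ≤ r * ((2 * (B * ‖x‖)) * (2 * (B * ‖y‖))
      + (B * ‖x‖ * ‖y‖ + B * ‖x‖ * ‖y‖)) + E * (2 * (r * (B * ‖x‖)) * (2 * (B * ‖y‖))) := by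
    have h2 : E * (2 * hs g z x y) = r * ((fderiv ℝ a z x + fderiv ℝ b z x)
          * (fderiv ℝ a z y + fderiv ℝ b z y) + (hs a z x y + hs b z x y))
          - E * (2 * fderiv ℝ g z x * (2 * fderiv ℝ g z y)) := by
      have := d2 x y; linarith
    have h3 : E * (2 * |hs g z x y|) = |E * (2 * hs g z x y)| := by
      rw [abs_mul, abs_mul, abs_of_pos E0]; simp
    rw [h3, h2]
    refine (abs_sub _ _).trans ?_
    refine add_le_add ?_ ?_
    · rw [abs_mul, abs_of_pos r0]
      refine mul_le_mul_of_nonneg_left ?_ r0.le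
      refine (abs_add_le _ _).trans (add_le_add ?_ ((abs_add_le _ _).trans
        (add_le_add (ba2 x y) (bb2 x y))))
      rw [abs_mul]
      exact mul_le_mul (bab x) (bab y) (abs_nonneg _) (by positivity)
    · rw [abs_mul, abs_of_pos E0]
      refine mul_le_mul_of_nonneg_left ?_ E0.le
      rw [abs_mul, abs_mul, abs_mul]
      simp only [abs_two]
      refine mul_le_mul ?_ ?_ (by positivity) (by positivity)
      · linarith [k1 x]
      · linarith [bg y]
  have h4 : r * ((2 * (B * ‖x‖)) * (2 * (B * ‖y‖))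
      + (B * ‖x‖ * ‖y‖ + B * ‖x‖ * ‖y‖)) ≤ E * (r * ((2 * (B * ‖x‖)) * (2 * (B * ‖y‖))
      + (B * ‖x‖ * ‖y‖ + B * ‖x‖ * ‖y‖))) := le_mul_of_one_le_left (by positivity) E1
  have h5 : E * (2 * |hs g z x y|) ≤ E * (2 * (r * ((4 * B ^ 2 + B) * ‖x‖ * ‖y‖))) := by
    calc E * (2 * |hs g z x y|) ≤ _ := h1
      _ ≤ E * (r * ((2 * (B * ‖x‖)) * (2 * (B * ‖y‖))
      + (B * ‖x‖ * ‖y‖ + B * ‖x‖ * ‖y‖))) + E * (2 * (r * (B * ‖x‖)) * (2 * (B * ‖y‖))) := by
          linarith
      _ = _ := by ring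
  have h6 := le_of_mul_le_mul_left h5 E0
  linarith

/-- all the bounds, with one constant -/
theorem XA_bounds (hGS : GS_stmt) (hDT : DT_stmt) (hBD : BD_stmt) (hBF : BF_stmt) (hQB : QB_stmt)
    (w : Word J) (l : ℝ) : ∃ k : ℝ, 0 ≤ k ∧ ∀ z : PS J, z ∈ Cone J → w.H z = l →
    (∀ x, |w.Y x| ≤ k * ‖x‖) ∧
    (∀ x, |XA_p w z x| ≤ k * w.eps z * ‖x‖) ∧
    (∀ x, |XA_M w z x| ≤ k * w.eps z * ‖x‖) ∧
    (∀ x y, |XA_pp w z x y| ≤ k * w.eps z * ‖x‖ * ‖y‖) ∧
    (∀ x y, |XA_MM w z x y| ≤ k * w.eps z * ‖x‖ * ‖y‖) := by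
  have hc1 : 1 ≤ Real.cosh (l / 2) := Real.one_le_cosh _
  have hδ : 0 < 1 / Real.cosh (l / 2) ^ 2 := by positivity
  obtain ⟨B, hB0, hB⟩ := hBD J (1 / Real.cosh (l / 2) ^ 2) hδ
  set c := Real.cosh (l / 2) with hc
  have hc0 : 0 < c := by linarith
  set T : ℝ := ∑ i, (1 + |w.c i|) with hT
  have hT0 : 0 ≤ T := Finset.sum_nonneg fun i _ => by positivity
  set n1 : ℝ := (w.n : ℝ) + 1 with hn1
  have hn0 : 0 ≤ n1 := by positivity
  have hcard : (Finset.univ : Finset (Fin (w.n + 1))).card = w.n + 1 := by simp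
  set D : ℝ := T + n1 * B with hD
  have hD0 : 0 ≤ D := by positivity
  refine ⟨T + n1 * (B * (c + 1)) + n1 * ((4 * B ^ 2 + B) * (c + 1)) + D + (D ^ 2 + n1 * B),
    by positivity, fun z hz hH => ?_⟩
  obtain ⟨-, -, hcosh, -, -, hF, hlP, hP, hWm, -, -, -, hr, -⟩ := hBF J w z hz
  rw [hH] at hP
  have hq : ∀ i, 1 / c ^ 2 ≤ z.1 (w.j i) := by
    intro i; have := hQB J w z hz i; rwa [hH] at this
  have hgB : ∀ i (s s' : Bool) (x y : PS J),
      |fderiv ℝ (fun z : PS J => (w.A i).g s s' z.1) z x| ≤ B * ‖x‖ ∧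
      |hs (fun z : PS J => (w.A i).g s s' z.1) z x y| ≤ B * ‖x‖ * ‖y‖ := fun i =>
    hB (w.A i) z hz (by rw [w.src_eq]; exact hq i) (by rw [w.tgt_eq]; exact hq (i + 1))
  set E := w.eps z with hE
  have hP1 : 1 < Real.exp (w.lP z) := by rw [← Real.exp_zero]; exact Real.exp_lt_exp.mpr hlP
  have hE0 : 0 ≤ E := by
    rw [hE]; unfold Word.eps; linarith
  have hWmE : w.Wm z ≤ E := by rw [hE]; unfold Word.eps; linarith
  have hPE : Real.exp (w.lP z) - 1 ≤ E := by rw [hE]; unfold Word.eps; linarith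
  have hrE : ∀ i, Real.exp ((w.A i).g true false z.1 + (w.A i).g false true z.1)
      ≤ (c + 1) * E := by
    intro i
    refine (hr i).trans ?_
    have : Real.exp (2 * w.lP z) - 1 = (Real.exp (w.lP z) + 1) * (Real.exp (w.lP z) - 1) := by
      rw [two_mul, Real.exp_add]; ring
    rw [this]
    exact mul_le_mul (by linarith) hPE (by linarith) (by positivity)
  have hgtt := fun i => XA_gtt hGS hDT (w.A i) hz B hB0 (hgB i)
  -- bounds of the log weights
  have hdL : ∀ σ x, |fderiv ℝ (w.L σ) z x| ≤ D * ‖x‖ := by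
    intro σ x
    rw [XA_fdL hGS w σ hz]
    refine (Finset.abs_sum_le_sum_abs _ _).trans ?_
    have : ∀ i ∈ (Finset.univ : Finset (Fin (w.n + 1))), |bs (σ i) * w.t i x / 2
      + fderiv ℝ (fun z : PS J => (w.A i).g (σ i) (σ (i + 1)) z.1) z x|
        ≤ (1 + |w.c i|) * ‖x‖ + B * ‖x‖ := by
      intro i _
      refine (abs_add_le _ _).trans (add_le_add ?_ (hgB i _ _ x x).1)
      have h1 := XA_t_le w i x
      have h2 : |bs (σ i) * w.t i x / 2| = |w.t i x| / 2 := by
        rw [abs_div, abs_mul]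
        have : |bs (σ i)| = 1 := by unfold bs; split_ifs <;> simp
        rw [this]; simp
      rw [h2]
      linarith [abs_nonneg (w.t i x)]
    refine (Finset.sum_le_sum this).trans ?_
    rw [Finset.sum_add_distrib, ← Finset.sum_mul, Finset.sum_const, hcard, nsmul_eq_mul]
    push_cast
    rw [hD, hT, hn1]
    apply le_of_eq; ring
  have hhL : ∀ σ x y, |hs (w.L σ) z x y| ≤ n1 * B * ‖x‖ * ‖y‖ := by
    intro σ x y
    rw [XA_hsL hGS w σ hz]
    refine (Finset.abs_sum_le_sum_abs _ _).trans ?_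
    refine (Finset.sum_le_sum fun i _ => (hgB i _ _ x y).2).trans ?_
    rw [Finset.sum_const, hcard, nsmul_eq_mul]
    push_cast
    apply le_of_eq; ring
  have hmix : ∀ (f : (Fin (w.n + 1) → Bool) → ℝ) (b : ℝ), 0 ≤ b → (∀ σ, |f σ| ≤ b) →
      |∑ σ : Fin (w.n + 1) → Bool, if w.Mixed σ then w.W σ z * f σ else 0| ≤ E * b := by
    intro f b hb hf
    refine (Finset.abs_sum_le_sum_abs _ _).trans ?_
    have h1 : ∀ σ ∈ (Finset.univ : Finset (Fin (w.n + 1) → Bool)),
        |if w.Mixed σ then w.W σ z * f σ else 0| ≤ (if w.Mixed σ then w.W σ z else 0) * b := by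
      intro σ _
      split_ifs
      · rw [abs_mul, abs_of_pos (show 0 < w.W σ z from Real.exp_pos _)]
        exact mul_le_mul_of_nonneg_left (hf σ) (Real.exp_pos _).le
      · simp
    refine (Finset.sum_le_sum h1).trans ?_
    rw [← Finset.sum_mul]
    exact mul_le_mul_of_nonneg_right hWmE hb
  refine ⟨fun x => ?_, fun x => ?_, fun x => ?_, fun x y => ?_, fun x y => ?_⟩
  · have h1 : |w.Y x| ≤ T * ‖x‖ := by
      unfold Word.Y
      refine (Finset.abs_sum_le_sum_abs _ _).trans ?_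
      refine (Finset.sum_le_sum fun i _ => XA_t_le w i x).trans ?_
      rw [← Finset.sum_mul]
    refine h1.trans ?_
    have : 0 ≤ n1 * (B * (c + 1)) + n1 * ((4 * B ^ 2 + B) * (c + 1)) + D + (D ^ 2 + n1 * B) := by
      positivity
    gcongr
    linarith
  · have h1 : |XA_p w z x| ≤ (n1 * (B * (c + 1))) * E * ‖x‖ := by
      unfold XA_p
      refine (Finset.abs_sum_le_sum_abs _ _).trans ?_
      have h2 : ∀ i ∈ (Finset.univ : Finset (Fin (w.n + 1))),
          |fderiv ℝ (fun z : PS J => (w.A i).g true true z.1) z x|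
            ≤ (c + 1) * E * (B * ‖x‖) := fun i _ =>
        ((hgtt i).1 x).trans (by have := hrE i; gcongr)
      refine (Finset.sum_le_sum h2).trans ?_
      rw [Finset.sum_const, hcard, nsmul_eq_mul]
      push_cast
      apply le_of_eq; ring
    refine h1.trans ?_
    have : 0 ≤ T + n1 * ((4 * B ^ 2 + B) * (c + 1)) + D + (D ^ 2 + n1 * B) := by
      positivity
    gcongr
    linarith
  · have h1 : |XA_M w z x| ≤ E * (D * ‖x‖) := hmix _ _ (by positivity) fun σ => hdL σ x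
    have : 0 ≤ T + n1 * (B * (c + 1)) + n1 * ((4 * B ^ 2 + B) * (c + 1)) + (D ^ 2 + n1 * B) := by
      positivity
    calc |XA_M w z x| ≤ D * E * ‖x‖ := by linarith
      _ ≤ _ := by gcongr; linarith
  · have h1 : |XA_pp w z x y| ≤ (n1 * ((4 * B ^ 2 + B) * (c + 1))) * E * ‖x‖ * ‖y‖ := by
      unfold XA_pp
      refine (Finset.abs_sum_le_sum_abs _ _).trans ?_
      have h2 : ∀ i ∈ (Finset.univ : Finset (Fin (w.n + 1))),
          |hs (fun z : PS J => (w.A i).g true true z.1) z x y|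
            ≤ (c + 1) * E * ((4 * B ^ 2 + B) * ‖x‖ * ‖y‖) := fun i _ =>
        ((hgtt i).2 x y).trans (by have := hrE i; gcongr)
      refine (Finset.sum_le_sum h2).trans ?_
      rw [Finset.sum_const, hcard, nsmul_eq_mul]
      push_cast
      apply le_of_eq; ring
    refine h1.trans ?_
    have : 0 ≤ T + n1 * (B * (c + 1)) + D + (D ^ 2 + n1 * B) := by
      positivity
    gcongr
    linarith
  · have h1 : |XA_MM w z x y| ≤ E * ((D ^ 2 + n1 * B) * ‖x‖ * ‖y‖) := by
      refine hmix _ _ (by positivity) fun σ => ?_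
      refine (abs_add_le _ _).trans ?_
      rw [abs_mul]
      have h2 : |fderiv ℝ (w.L σ) z x| * |fderiv ℝ (w.L σ) z y| ≤ (D * ‖x‖) * (D * ‖y‖) :=
        mul_le_mul (hdL σ x) (hdL σ y) (abs_nonneg _) (by positivity)
      have h3 := hhL σ x y
      calc _ ≤ (D * ‖x‖) * (D * ‖y‖) + n1 * B * ‖x‖ * ‖y‖ := add_le_add h2 h3
        _ = _ := by ring
    have : 0 ≤ T + n1 * (B * (c + 1)) + n1 * ((4 * B ^ 2 + B) * (c + 1)) + D := by
      positivity
    have hle : D ^ 2 + n1 * B ≤ T + n1 * (B * (c + 1)) + n1 * ((4 * B ^ 2 + B) * (c + 1)) + D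
        + (D ^ 2 + n1 * B) := by linarith
    calc |XA_MM w z x y| ≤ (D ^ 2 + n1 * B) * E * ‖x‖ * ‖y‖ := by linarith
      _ ≤ _ := mul_le_mul_of_nonneg_right (mul_le_mul_of_nonneg_right
        (mul_le_mul_of_nonneg_right hle hE0) (norm_nonneg _)) (norm_nonneg _)

end words

theorem XA_of (hGS : GS_stmt) (hDT : DT_stmt) (hBD : BD_stmt) (hBF : BF_stmt) (hQB : QB_stmt)
    (hEU : EU_stmt) : XA_stmt := by
  intro J _ _ w l hl
  obtain ⟨k, hk0, hk⟩ := XA_bounds hGS hDT hBD hBF hQB w l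
  set c := Real.cosh (l / 2) with hc
  set s := Real.sinh (l / 2) with hs'
  have hs0 : 0 < s := Real.sinh_pos_iff.mpr (by linarith)
  have hc1 : 1 ≤ c := Real.one_le_cosh _
  set a : ℝ := (Real.exp (l / 2) + (w.n + 1)) * s with ha
  have ha0 : 0 < a := by positivity
  -- common estimate
  have key : ∀ z : PS J, z ∈ Cone J → w.H z = l → ∀ ϑ : ℝ, 0 ≤ ϑ → w.eps z ≤ a * ϑ →
      ∀ η : ℝ, |η| = 1 →
      |w.W (fun _ => true) z - w.W (fun _ => false) z + η * (2 * s)| ≤ 2 * s * ϑ + 3 * w.Wm z →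
      ∀ x : PS J, |fderiv ℝ w.H z x + η * w.Y x| ≤
        ((2 * s + 3 * a) * k + 2 * c * (k * a) + k * a) / s * ϑ * ‖x‖ := by
    intro z hz hH ϑ hϑ hE η hη hW x
    obtain ⟨hY, hp, hM, -, -⟩ := hk z hz hH
    obtain ⟨-, hFH, -⟩ := XA_FH hGS hBF w hz
    obtain ⟨-, -, hcosh, hWt, hWf, hF, hlP, hP, hWm, -, -, -, -, -⟩ := hBF J w z hz
    have h1 := hFH x
    rw [XA_dF hGS hDT w hz, hH] at h1
    rw [hH] at hcosh
    have hFc : w.W (fun _ => true) z + w.W (fun _ => false) z + w.Wm z = 2 * c := by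
      rw [hc, hcosh]
      have := XA_split w (fun σ => w.W σ z)
      unfold Word.F
      rw [this]; rfl
    have hP1 : 1 < Real.exp (w.lP z) := by rw [← Real.exp_zero]; exact Real.exp_lt_exp.mpr hlP
    have hWmE : w.Wm z ≤ w.eps z := by unfold Word.eps; linarith
    have hWt0 : 0 < w.W (fun _ => true) z := Real.exp_pos _
    have hWf0 : 0 < w.W (fun _ => false) z := Real.exp_pos _
    have hx := norm_nonneg x
    have h2 : s * (fderiv ℝ w.H z x + η * w.Y x)
        = (w.W (fun _ => true) z - w.W (fun _ => false) z + η * (2 * s)) * (w.Y x / 2)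
          + (w.W (fun _ => true) z + w.W (fun _ => false) z) * XA_p w z x + XA_M w z x := by
      rw [mul_add, ← h1]; ring
    have h3 : s * |fderiv ℝ w.H z x + η * w.Y x| ≤
        ((2 * s + 3 * a) * k + 2 * c * (k * a) + k * a) * ϑ * ‖x‖ := by
      have h4 : s * |fderiv ℝ w.H z x + η * w.Y x| = |s * (fderiv ℝ w.H z x + η * w.Y x)| := by
        rw [abs_mul, abs_of_pos hs0]
      rw [h4, h2]
      have e1 : |(w.W (fun _ => true) z - w.W (fun _ => false) z + η * (2 * s)) * (w.Y x / 2)|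
          ≤ ((2 * s + 3 * a) * ϑ) * (k * ‖x‖) := by
        rw [abs_mul]
        refine mul_le_mul ?_ ?_ (abs_nonneg _) (by positivity)
        · refine hW.trans ?_
          nlinarith [hWmE.trans hE]
        · rw [abs_div, abs_two]
          have := hY x
          linarith [abs_nonneg (w.Y x)]
      have e2 : |(w.W (fun _ => true) z + w.W (fun _ => false) z) * XA_p w z x|
          ≤ (2 * c) * (k * (a * ϑ) * ‖x‖) := by
        rw [abs_mul, abs_of_pos (by linarith)]
        refine mul_le_mul (by linarith) ?_ (abs_nonneg _) (by positivity)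
        refine (hp x).trans ?_
        gcongr
      have e3 : |XA_M w z x| ≤ k * (a * ϑ) * ‖x‖ := by
        refine (hM x).trans ?_
        gcongr
      calc _ ≤ _ := abs_add_three _ _ _
        _ ≤ _ := add_le_add (add_le_add e1 e2) e3
        _ = _ := by ring
    have h5 : |fderiv ℝ w.H z x + η * w.Y x| ≤
        (((2 * s + 3 * a) * k + 2 * c * (k * a) + k * a) * ϑ * ‖x‖) / s := by
      rw [le_div_iff₀ hs0]; linarith
    refine h5.trans (le_of_eq ?_)
    ring
  set C : ℝ := ((2 * s + 3 * a) * k + 2 * c * (k * a) + k * a) / s + 1 with hC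
  have hC' : 0 ≤ ((2 * s + 3 * a) * k + 2 * c * (k * a) + k * a) / s := by positivity
  refine ⟨C, by linarith, fun z hz hH => ⟨fun ϑ hϑ => ?_, fun ϑ hϑ => ?_⟩⟩
  · obtain ⟨-, -, hcosh, hWt, hWf, hF, hlP, hP, hWm, hp1, hp2, hct, -, -⟩ := hBF J w z hz
    have hϑ0 : 0 ≤ ϑ := by
      have h1 := hϑ 0
      have h2 := (abs_lt.mp (hct 0)).2
      linarith
    have hE : w.eps z ≤ a * ϑ := by
      have := (hEU J w z hz ϑ).1 hϑ
      rwa [hH] at this
    rw [hH] at hcosh
    have hFc : w.W (fun _ => true) z + w.W (fun _ => false) z + w.Wm z = 2 * c := by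
      rw [hc, hcosh]
      have := XA_split w (fun σ => w.W σ z)
      unfold Word.F
      rw [this]; rfl
    have hsum := hp1 0
    rw [hH] at hsum
    have hsp := XA_split w (fun σ => if σ 0 = true then w.W σ z else 0)
    simp only [if_true] at hsp
    have hmixle : 0 ≤ ∑ σ : Fin (w.n + 1) → Bool, (if w.Mixed σ then
        (if σ 0 = true then w.W σ z else 0) else 0) ∧ ∑ σ : Fin (w.n + 1) → Bool,
        (if w.Mixed σ then (if σ 0 = true then w.W σ z else 0) else 0) ≤ w.Wm z := by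
      constructor
      · refine Finset.sum_nonneg fun σ _ => ?_
        split_ifs <;> first | exact (Real.exp_pos _).le | exact le_refl _
      · unfold Word.Wm
        refine Finset.sum_le_sum fun σ _ => ?_
        split_ifs <;> first | exact (Real.exp_pos _).le | exact le_refl _
    have hexp : Real.exp (-(l / 2)) = c - s := by
      rw [hc, hs', Real.cosh_sub_sinh]
    have hct0 := (abs_lt.mp (hct 0)).2
    have hth := hϑ 0
    have hb1 : s * (1 - w.ct 0 z) ≤ s * ϑ := by gcongr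
    have hb2 : 0 ≤ s * (1 - w.ct 0 z) := mul_nonneg hs0.le (by linarith)
    refine norm_le_of_om _ _ (by positivity) fun y hy => ?_
    rw [om_sub_left, om_sg, XA_om_e]
    have := key z hz hH ϑ hϑ0 hE 1 (by simp) (by
      rw [abs_le]
      simp at hsp
      rw [hsp] at hsum
      constructor <;> linarith [hmixle.1, hmixle.2]) y
    rw [one_mul] at this
    rw [sub_neg_eq_add]
    refine this.trans ?_
    have hy0 := norm_nonneg y
    calc _ ≤ ((2 * s + 3 * a) * k + 2 * c * (k * a) + k * a) / s * ϑ * 1 := by gcongr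
      _ ≤ C * ϑ := by rw [mul_one]; gcongr; linarith
  · obtain ⟨-, -, hcosh, hWt, hWf, hF, hlP, hP, hWm, hp1, hp2, hct, -, -⟩ := hBF J w z hz
    have hϑ0 : 0 ≤ ϑ := by
      have h1 := hϑ 0
      have h2 := (abs_lt.mp (hct 0)).1
      linarith
    have hE : w.eps z ≤ a * ϑ := by
      have := (hEU J w z hz ϑ).2 hϑ
      rwa [hH] at this
    rw [hH] at hcosh
    have hFc : w.W (fun _ => true) z + w.W (fun _ => false) z + w.Wm z = 2 * c := by
      rw [hc, hcosh]
      have := XA_split w (fun σ => w.W σ z)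
      unfold Word.F
      rw [this]; rfl
    have hsum := hp2 0
    rw [hH] at hsum
    have hsp := XA_split w (fun σ => if σ 0 = false then w.W σ z else 0)
    have hmixle : 0 ≤ ∑ σ : Fin (w.n + 1) → Bool, (if w.Mixed σ then
        (if σ 0 = false then w.W σ z else 0) else 0) ∧ ∑ σ : Fin (w.n + 1) → Bool,
        (if w.Mixed σ then (if σ 0 = false then w.W σ z else 0) else 0) ≤ w.Wm z := by
      constructor
      · refine Finset.sum_nonneg fun σ _ => ?_
        split_ifs <;> first | exact (Real.exp_pos _).le | exact le_refl _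
      · unfold Word.Wm
        refine Finset.sum_le_sum fun σ _ => ?_
        split_ifs <;> first | exact (Real.exp_pos _).le | exact le_refl _
    have hexp : Real.exp (-(l / 2)) = c - s := by
      rw [hc, hs', Real.cosh_sub_sinh]
    have hct0 := (abs_lt.mp (hct 0)).1
    have hth := hϑ 0
    have hb1 : s * (1 + w.ct 0 z) ≤ s * ϑ := by gcongr
    have hb2 : 0 ≤ s * (1 + w.ct 0 z) := mul_nonneg hs0.le (by linarith)
    refine norm_le_of_om _ _ (by positivity) fun y hy => ?_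
    rw [om_add_left, om_sg, XA_om_e]
    have := key z hz hH ϑ hϑ0 hE (-1) (by simp) (by
      rw [abs_le]
      simp at hsp
      rw [hsp] at hsum
      constructor <;> linarith [hmixle.1, hmixle.2]) y
    rw [neg_one_mul] at this
    refine this.trans ?_
    have hy0 := norm_nonneg y
    calc _ ≤ ((2 * s + 3 * a) * k + 2 * c * (k * a) + k * a) / s * ϑ * 1 := by gcongr
      _ ≤ C * ϑ := by rw [mul_one]; gcongr; linarith

end Pool.Agent.helper73.AD
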